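import Pool.Agent.Y16.AF.StmA

/-!
# Passage to momentum space and the global zero mode (`af_pos`)
-/

open Matrix
open scoped Matrix.Norms.Frobenius Topology
open Pool.Agent.Y16.AF

namespace Pool.Agent.Y141.AF

set_option linter.unusedSectionVars false

noncomputable section

variable {L : ℕ} [NeZero L]

/-- characters -/
def chi (k v : Sp L) : ℂ := ∏ j, ZMod.stdAddChar (k j * v j)

theorem chi_eq (k v : Sp L) : ∏ j, zk k j ^ (v j).val = chi k v := by
  unfold chi zk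
  refine Finset.prod_congr rfl fun j _ => ?_
  rw [← AddChar.map_nsmul_eq_pow, nsmul_eq_mul, ZMod.natCast_zmod_val, mul_comm]

theorem chi_zero (k : Sp L) : chi k 0 = 1 := by
  unfold chi
  refine Finset.prod_eq_one fun j _ => ?_
  rw [Pi.zero_apply, mul_zero, AddChar.map_zero_eq_one]

theorem chi_comm (k v : Sp L) : chi k v = chi v k := by
  unfold chi
  refine Finset.prod_congr rfl fun j _ => ?_
  rw [mul_comm]

theorem chi_single (k : Sp L) (j : Fin 3) : chi k (Pi.single j 1) = zk k j := by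
  unfold chi zk
  rw [Finset.prod_eq_single j]
  · rw [Pi.single_eq_same, mul_one]
  · intro b _ hb
    rw [Pi.single_eq_of_ne hb, mul_zero, AddChar.map_zero_eq_one]
  · intro h; exact absurd (Finset.mem_univ j) h

theorem chi_add (k v w : Sp L) : chi k (v + w) = chi k v * chi k w := by
  unfold chi
  rw [← Finset.prod_mul_distrib]
  refine Finset.prod_congr rfl fun j _ => ?_
  rw [Pi.add_apply, mul_add, AddChar.map_add_eq_mul]

theorem chi_neg (k v : Sp L) : chi k (-v) = (starRingEnd ℂ) (chi k v) := by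
  unfold chi
  rw [map_prod]
  refine Finset.prod_congr rfl fun j _ => ?_
  rw [Pi.neg_apply, mul_neg, AddChar.map_neg_eq_conj]

theorem chi_sum (v : Sp L) : ∑ k, chi k v = if v = 0 then (L : ℂ) ^ 3 else 0 := by
  unfold chi
  have h1 : ∀ j, ∑ a : ZMod L, ZMod.stdAddChar (a * v j) = if v j = 0 then (L : ℂ) else 0 := by
    intro j
    have := AddChar.sum_mulShift (v j) (ZMod.isPrimitive_stdAddChar L)
    rw [ZMod.card] at this
    rw [this]
    push_cast
    rfl
  have h2 : ∑ k : Sp L, ∏ j, ZMod.stdAddChar (k j * v j) =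
      ∏ j, ∑ a : ZMod L, ZMod.stdAddChar (a * v j) := by
    rw [Finset.prod_univ_sum]
    rw [Fintype.piFinset_univ]
  rw [h2, Finset.prod_congr rfl fun j _ => h1 j]
  split_ifs with h
  · subst h
    simp
  · obtain ⟨j, hj⟩ := Function.ne_iff.1 h
    exact Finset.prod_eq_zero (Finset.mem_univ j) (if_neg hj)

theorem hL3 : (L : ℂ) ^ 3 ≠ 0 := pow_ne_zero _ (Nat.cast_ne_zero.2 (NeZero.ne L))

theorem lz_eq (k : Sp L) (κ : Fin 3 ⊕ Fin 3) (i : Fin 4) : lz (zk k) κ i = chi k (ls κ i) := by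
  rcases κ with j | m
  · fin_cases i
    · exact (chi_single k j).symm
    · exact (chi_zero k).symm
    · exact (chi_zero k).symm
    · exact (chi_zero k).symm
  · fin_cases i
    · exact (chi_single k (pi1 m)).symm
    · exact (chi_single k (pi2 m)).symm
    · exact (chi_zero k).symm
    · exact (chi_zero k).symm

theorem delta (v : Sp L) : (if v = 0 then (1 : ℂ) else 0) = 1 / (L : ℂ) ^ 3 * ∑ k, chi k v := by
  rw [chi_sum]
  split_ifs
  · rw [one_div, inv_mul_cancel₀ hL3]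
  · rw [mul_zero]

theorem inc_eq (s : Sp L) (t : Fin L) (κ : Fin 3 ⊕ Fin 3) (i : Fin 4) (x : Sp L) (a : AL L) :
    (inc (s, t, κ) i (x, a) : ℂ) = if s = x - ls κ i then inl1 t κ i a else 0 := by
  unfold inc inl1
  simp only
  by_cases h : s = x - ls κ i
  · rw [if_pos h]
    have h' : s + ls κ i = x := by rw [h, sub_add_cancel]
    by_cases h2 : lv t κ i = some a
    · rw [if_pos ⟨h2, h'⟩, if_pos h2]
    · rw [if_neg (fun h3 => h2 h3.1), if_neg h2, Complex.ofReal_zero]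
  · rw [if_neg h, if_neg, Complex.ofReal_zero]
    rintro ⟨_, h3⟩
    exact h (eq_sub_of_add_eq h3)

theorem hF_eq (ε : ℝ) (x y : Sp L) (a b : AL L) :
    hF ε (x, a) (y, b) = (1 / (L : ℂ) ^ 3) * ∑ k : Sp L, chi k (x - y) * hS ε (zk k) a b := by
  unfold hF hS
  rw [Fintype.sum_prod_type, Finset.sum_comm, Fintype.sum_prod_type]
  have key : ∀ (t : Fin L) (κ : Fin 3 ⊕ Fin 3) (i j : Fin 4),
      ∑ s : Sp L, (inc (s, t, κ) i (x, a) : ℂ) * inc (s, t, κ) j (y, b) *
        om (al L κ * ε) (ta t κ * ε) i j =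
      1 / (L : ℂ) ^ 3 * ∑ k : Sp L, chi k (x - y) * (inl1 t κ i a * inl1 t κ j b *
        om (al L κ * ε) (ta t κ * ε) i j *
          ((starRingEnd ℂ) (lz (zk k) κ i) * lz (zk k) κ j)) := by
    intro t κ i j
    have h1 : ∀ k : Sp L, chi k (x - y) * (inl1 t κ i a * inl1 t κ j b *
        om (al L κ * ε) (ta t κ * ε) i j *
          ((starRingEnd ℂ) (lz (zk k) κ i) * lz (zk k) κ j)) =
        (inl1 t κ i a * inl1 t κ j b * om (al L κ * ε) (ta t κ * ε) i j) *
          chi k (x - y + (-(ls κ i) + ls κ j)) := by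
      intro k
      rw [chi_add, chi_add, chi_neg, lz_eq, lz_eq]
      ring
    rw [Finset.sum_congr rfl fun k _ => h1 k, ← Finset.mul_sum]
    have h2 := delta (x - y + (-(ls κ i) + ls κ j))
    have h3 : ∀ s : Sp L, (inc (s, t, κ) i (x, a) : ℂ) * inc (s, t, κ) j (y, b) *
        om (al L κ * ε) (ta t κ * ε) i j =
        if s = x - ls κ i then (inl1 t κ i a * inl1 t κ j b *
          om (al L κ * ε) (ta t κ * ε) i j) *
            (if x - y + (-(ls κ i) + ls κ j) = 0 then 1 else 0) else 0 := by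
      intro s
      rw [inc_eq, inc_eq]
      by_cases h : s = x - ls κ i
      · rw [if_pos h, if_pos h]
        have : (s = y - ls κ j) ↔ (x - y + (-(ls κ i) + ls κ j) = 0) := by
          rw [h]
          constructor
          · intro h5
            have : x - y + (-(ls κ i) + ls κ j) = (x - ls κ i) - (y - ls κ j) := by abel
            rw [this, h5, sub_self]
          · intro h5
            have h6 : x - y + (-(ls κ i) + ls κ j) = (x - ls κ i) - (y - ls κ j) := by abel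
            rw [h6] at h5
            exact sub_eq_zero.1 h5
        by_cases h7 : s = y - ls κ j
        · rw [if_pos h7, if_pos (this.1 h7), mul_one]
        · rw [if_neg h7, if_neg (fun h8 => h7 (this.2 h8))]
          ring
      · rw [if_neg h, if_neg h]
        ring
    rw [Finset.sum_congr rfl fun s _ => h3 s, Finset.sum_ite_eq' Finset.univ, if_pos (Finset.mem_univ _),
      h2]
    ring
  have h4 : ∀ (t : Fin L) (κ : Fin 3 ⊕ Fin 3), ∑ s : Sp L, ∑ i, ∑ j,
      (inc (s, t, κ) i (x, a) : ℂ) * inc (s, t, κ) j (y, b) *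
        om (al L κ * ε) (ta t κ * ε) i j = ∑ i, ∑ j, 1 / (L : ℂ) ^ 3 * ∑ k : Sp L,
          chi k (x - y) * (inl1 t κ i a * inl1 t κ j b *
        om (al L κ * ε) (ta t κ * ε) i j *
          ((starRingEnd ℂ) (lz (zk k) κ i) * lz (zk k) κ j)) := by
    intro t κ
    rw [Finset.sum_comm]
    refine Finset.sum_congr rfl fun i _ => ?_
    rw [Finset.sum_comm]
    exact Finset.sum_congr rfl fun j _ => key t κ i j
  rw [Finset.sum_congr rfl fun t _ => Finset.sum_congr rfl fun κ _ => h4 t κ]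
  simp only [Finset.mul_sum]
  symm
  rw [Finset.sum_comm]
  refine Finset.sum_congr rfl fun t _ => ?_
  rw [Finset.sum_comm]
  refine Finset.sum_congr rfl fun κ _ => ?_
  rw [Finset.sum_comm]
  refine Finset.sum_congr rfl fun i _ => ?_
  rw [Finset.sum_comm]

theorem conj_two : (starRingEnd ℂ) (2 : ℂ) = 2 := map_ofNat (starRingEnd ℂ) 2

theorem om_conj (f θ : ℝ) (i j : Fin 4) : (starRingEnd ℂ) (om f θ i j) = om f θ j i := by
  unfold om
  have h : (starRingEnd ℂ) (ww f i j) = ww f j i := by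
    unfold ww
    rcases lt_trichotomy i j with h | h | h
    · rw [if_neg h.ne, if_pos h, if_neg h.ne', if_neg h.not_gt, ← Complex.exp_conj]
      congr 1
      rw [map_neg, map_mul, map_div₀, Complex.conj_I, Complex.conj_ofReal, conj_two]
      ring
    · rw [if_pos h, if_pos h.symm, Complex.conj_ofReal]
    · rw [if_neg h.ne', if_neg h.not_gt, if_neg h.ne, if_pos h, ← Complex.exp_conj]
      congr 1
      rw [map_mul, map_div₀, Complex.conj_I, Complex.conj_ofReal, conj_two]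
      ring
  rw [map_mul, map_mul, h, Complex.conj_conj]
  ring

theorem hS_conj (ε : ℝ) (z : Fin 3 → ℂ) (a b : AL L) :
    (starRingEnd ℂ) (hS ε z a b) = hS ε z b a := by
  unfold hS
  simp only [map_sum]
  refine Finset.sum_congr rfl fun t _ => Finset.sum_congr rfl fun κ _ => ?_
  rw [Finset.sum_comm]
  refine Finset.sum_congr rfl fun i _ => Finset.sum_congr rfl fun j _ => ?_
  have h : ∀ (t : Fin L) κ i (a : AL L), (starRingEnd ℂ) (inl1 t κ i a) = inl1 t κ i a := by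
    intro t κ i a
    unfold inl1
    split_ifs
    · exact Complex.conj_ofReal _
    · exact map_zero _
  rw [map_mul, map_mul, map_mul, map_mul, h, h, om_conj, Complex.conj_conj]
  ring

/-- the phase -/
def EE (L : ℕ) (ε : ℝ) (n : ℕ) : ℂ :=
  Complex.exp (Complex.I * (((n : ℝ) / (L : ℝ) ^ 2 * ε : ℝ) : ℂ))

/-- the zero mode -/
def zet (ε : ℝ) : AL L → ℂ
  | .inl t => if (t : ℕ) + 1 = L then 1 else 0
  | .inr (s, j) => if j = 0 then 1 - EE L ε (s + 1) else 0

/-- value on a leg -/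
def lvv (ε : ℝ) (o : Option (AL L)) : ℂ := o.elim 0 (zet ε)

theorem lvv_sum (ε : ℝ) (t : Fin L) (κ : Fin 3 ⊕ Fin 3) (j : Fin 4) :
    ∑ b, inl1 t κ j b * zet ε b = sg κ j * lvv ε (lv t κ j) := by
  unfold inl1 lvv
  cases h : lv t κ j with
  | none => simp
  | some b0 =>
    simp only [Option.some.injEq, Option.elim_some, ite_mul, zero_mul]
    rw [Finset.sum_ite_eq, if_pos (Finset.mem_univ _)]

/-- the field -/
def RR (ε : ℝ) (t : Fin L) (κ : Fin 3 ⊕ Fin 3) (i : Fin 4) : ℂ :=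
  ∑ j, om (al L κ * ε) (ta t κ * ε) i j * (sg κ j * lvv ε (lv t κ j))

theorem lz_one (κ : Fin 3 ⊕ Fin 3) (i : Fin 4) : lz 1 κ i = 1 := by
  rcases κ with j | m <;> fin_cases i <;> rfl

theorem hS_zet (ε : ℝ) (a : AL L) :
    ∑ b, hS ε 1 a b * zet ε b = ∑ t, ∑ κ, ∑ i, inl1 t κ i a * RR ε t κ i := by
  unfold hS RR
  simp only [Finset.sum_mul]
  rw [Finset.sum_comm]
  refine Finset.sum_congr rfl fun t _ => ?_
  rw [Finset.sum_comm]
  refine Finset.sum_congr rfl fun κ _ => ?_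
  rw [Finset.sum_comm]
  refine Finset.sum_congr rfl fun i _ => ?_
  rw [Finset.sum_comm, Finset.mul_sum]
  refine Finset.sum_congr rfl fun j _ => ?_
  rw [← lvv_sum, Finset.mul_sum, Finset.mul_sum]
  refine Finset.sum_congr rfl fun b _ => ?_
  rw [lz_one, lz_one, map_one]
  ring

theorem lvv_T (ε : ℝ) (t : Fin L) : lvv ε (vT L t) = if (t : ℕ) + 1 = L then 1 else 0 := by
  unfold vT
  rw [dif_pos t.2]
  rfl

theorem lvv_S (ε : ℝ) (n : ℕ) (j : Fin 3) :
    lvv ε (vS L n j) = if n < L ∧ j = 0 then 1 - EE L ε n else 0 := by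
  unfold vS
  split_ifs with h h' h'
  · have h1 : n - 1 + 1 = n := Nat.sub_add_cancel h.1
    show (if j = 0 then 1 - EE L ε (n - 1 + 1) else 0) = _
    rw [if_pos h'.2, h1]
  · show (if j = 0 then 1 - EE L ε (n - 1 + 1) else 0) = _
    rw [if_neg]
    exact fun h2 => h' ⟨h.2, h2⟩
  · have : n = 0 := by
      by_contra h3
      exact h ⟨Nat.pos_of_ne_zero h3, h'.1⟩
    subst this
    show (0 : ℂ) = _
    unfold EE
    simp
  · rfl

theorem om_zero (i j : Fin 4) : om 0 0 i j = 1 := by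
  unfold om ww cc
  split_ifs <;> simp

theorem RR_inl (ε : ℝ) (t : Fin L) (j : Fin 3) (hj : j ≠ 0) (i : Fin 4) :
    RR ε t (.inl j) i = 0 := by
  have h1 : al L (.inl j : Fin 3 ⊕ Fin 3) * ε = 0 := by
    unfold al
    rw [if_neg (fun h => hj (Sum.inl_injective h)), zero_mul]
  have h2 : ta t (.inl j : Fin 3 ⊕ Fin 3) * ε = 0 := by
    show (if j = 0 then (t : ℝ) / (L : ℝ) ^ 2 else 0) * ε = 0
    rw [if_neg hj, zero_mul]
  unfold RR
  rw [h1, h2]
  simp only [om_zero, one_mul]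
  rw [Fin.sum_univ_four]
  show ((sg (.inl j) 0 : ℝ) : ℂ) * lvv ε (vT L t) + ((sg (.inl j) 1 : ℝ) : ℂ) * lvv ε (vS L t j) +
    ((sg (.inl j) 2 : ℝ) : ℂ) * lvv ε (vT L t) +
      ((sg (.inl j) 3 : ℝ) : ℂ) * lvv ε (vS L (t + 1) j) = 0
  rw [lvv_S, lvv_S, if_neg (fun h => hj h.2), if_neg (fun h => hj h.2)]
  have h3 : sg (.inl j) 0 = -1 := rfl
  have h4 : sg (.inl j) 2 = 1 := rfl
  rw [h3, h4]
  push_cast
  ring

theorem RR_inr (ε : ℝ) (t : Fin L) (m : Fin 3) (i : Fin 4) :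
    RR ε t (.inr m) i = 0 := by
  have h1 : al L (.inr m : Fin 3 ⊕ Fin 3) * ε = 0 := by
    unfold al
    rw [if_neg (fun h => by cases h), zero_mul]
  unfold RR
  rw [h1]
  rw [Fin.sum_univ_four]
  show om 0 (ta t (.inr m) * ε) i 0 * (((sg (.inr m) 0 : ℝ) : ℂ) * lvv ε (vS L t (pi2 m))) +
    om 0 (ta t (.inr m) * ε) i 1 * (((sg (.inr m) 1 : ℝ) : ℂ) * lvv ε (vS L t (pi1 m))) +
    om 0 (ta t (.inr m) * ε) i 2 * (((sg (.inr m) 2 : ℝ) : ℂ) * lvv ε (vS L t (pi2 m))) +
    om 0 (ta t (.inr m) * ε) i 3 * (((sg (.inr m) 3 : ℝ) : ℂ) * lvv ε (vS L t (pi1 m))) = 0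
  have h2 : pi2 m ≠ 0 := by fin_cases m <;> decide
  rw [lvv_S, lvv_S, if_neg (fun h => h2 h.2)]
  have h3 : sg (.inr m) 1 = -1 := rfl
  have h4 : sg (.inr m) 3 = 1 := rfl
  rw [h3, h4]
  have h5 : om 0 (ta t (.inr m) * ε) i 1 = om 0 (ta t (.inr m) * ε) i 3 := by
    unfold om ww cc
    rw [if_neg (by decide : ¬ ((1 : Fin 4) = 0)), if_neg (by decide : ¬ ((3 : Fin 4) = 0))]
    split_ifs <;> simp
  rw [h5]
  push_cast
  ring

/-- half of the strength -/
def ff (L : ℕ) (ε : ℝ) : ℝ := 1 / (L : ℝ) ^ 2 * ε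

def uu (L : ℕ) (ε : ℝ) : ℂ := Complex.exp (-(Complex.I * ((ff L ε : ℂ) / 2)))

def vv (L : ℕ) (ε : ℝ) : ℂ := Complex.exp (Complex.I * ((ff L ε : ℂ) / 2))

def co' (L : ℕ) (ε : ℝ) : ℂ := (Real.cos (ff L ε / 2) : ℂ)

theorem uv (ε : ℝ) : uu L ε * vv L ε = 1 := by
  unfold uu vv
  rw [← Complex.exp_add, neg_add_cancel, Complex.exp_zero]

theorem two_co (ε : ℝ) : 2 * co' L ε = uu L ε + vv L ε := by
  unfold uu vv co'
  rw [Complex.ofReal_cos, Complex.cos, mul_div_cancel₀ _ two_ne_zero]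
  push_cast
  rw [add_comm]
  congr 2 <;> ring

theorem EE_succ (ε : ℝ) (n : ℕ) : EE L ε (n + 1) = EE L ε n * (vv L ε * vv L ε) := by
  unfold EE vv ff
  rw [← Complex.exp_add, ← Complex.exp_add]
  congr 1
  push_cast
  ring

theorem EE_conj (ε : ℝ) (n : ℕ) : (starRingEnd ℂ) (EE L ε n) * EE L ε n = 1 := by
  unfold EE
  rw [← Complex.exp_conj, ← Complex.exp_add, map_mul, Complex.conj_I, Complex.conj_ofReal]
  rw [neg_mul, neg_add_cancel, Complex.exp_zero]

theorem al0 : al L (.inl 0 : Fin 3 ⊕ Fin 3) = 1 / (L : ℝ) ^ 2 := by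
  unfold al
  rw [if_pos rfl]

theorem ta0 (t : Fin L) : ta t (.inl 0 : Fin 3 ⊕ Fin 3) = (t : ℝ) / (L : ℝ) ^ 2 := by
  show (if (0 : Fin 3) = 0 then (t : ℝ) / (L : ℝ) ^ 2 else 0) = _
  rw [if_pos rfl]

theorem RR_exp (ε : ℝ) (t : Fin L) (i : Fin 4) :
    RR ε t (.inl 0) i = om (ff L ε) ((t : ℝ) / (L : ℝ) ^ 2 * ε) i 0 * (-(lvv ε (vT L t))) +
      om (ff L ε) ((t : ℝ) / (L : ℝ) ^ 2 * ε) i 1 * (-(lvv ε (vS L t 0))) +
      om (ff L ε) ((t : ℝ) / (L : ℝ) ^ 2 * ε) i 2 * (lvv ε (vT L t)) +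
      om (ff L ε) ((t : ℝ) / (L : ℝ) ^ 2 * ε) i 3 * (lvv ε (vS L (t + 1) 0)) := by
  unfold RR
  rw [al0, ta0, Fin.sum_univ_four]
  show om (ff L ε) ((t : ℝ) / (L : ℝ) ^ 2 * ε) i 0 * (((-1 : ℝ) : ℂ) * (lvv ε (vT L t))) +
      om (ff L ε) ((t : ℝ) / (L : ℝ) ^ 2 * ε) i 1 * (((-1 : ℝ) : ℂ) * (lvv ε (vS L t 0))) +
      om (ff L ε) ((t : ℝ) / (L : ℝ) ^ 2 * ε) i 2 * (((1 : ℝ) : ℂ) * (lvv ε (vT L t))) +
      om (ff L ε) ((t : ℝ) / (L : ℝ) ^ 2 * ε) i 3 * (((1 : ℝ) : ℂ) *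
        (lvv ε (vS L (t + 1) 0))) = _
  push_cast
  ring

theorem om_d (ε θ : ℝ) (i : Fin 4) (hi : i ≠ 0) : om (ff L ε) θ i i = co' L ε := by
  unfold om ww cc
  rw [if_pos rfl, if_neg hi, map_one, mul_one, mul_one]
  rfl

theorem om_00 (ε : ℝ) (t : ℕ) : om (ff L ε) ((t : ℝ) / (L : ℝ) ^ 2 * ε) 0 0 = co' L ε := by
  unfold om ww cc
  rw [if_pos rfl, if_pos rfl, mul_assoc]
  have := EE_conj (L := L) ε t
  unfold EE at this
  rw [this, mul_one]
  rfl

theorem om_0j (ε : ℝ) (t : ℕ) (j : Fin 4) (hj : j ≠ 0) :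
    om (ff L ε) ((t : ℝ) / (L : ℝ) ^ 2 * ε) 0 j = uu L ε * (starRingEnd ℂ) (EE L ε t) := by
  unfold om ww cc
  rw [if_neg hj.symm, if_pos (Fin.pos_iff_ne_zero.2 hj), if_pos rfl, if_neg hj, mul_one]
  rfl

theorem om_i0 (ε : ℝ) (t : ℕ) (i : Fin 4) (hi : i ≠ 0) :
    om (ff L ε) ((t : ℝ) / (L : ℝ) ^ 2 * ε) i 0 = vv L ε * EE L ε t := by
  unfold om ww cc
  rw [if_neg hi, if_neg (Fin.not_lt_zero i), if_neg hi, map_one, mul_one, if_pos rfl]
  rfl

theorem om_lt (ε θ : ℝ) (i j : Fin 4) (hi : i ≠ 0) (h : i < j) : om (ff L ε) θ i j = uu L ε := by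
  have hj : j ≠ 0 := (Fin.pos_of_ne_zero hi |>.trans h).ne'
  unfold om ww cc
  rw [if_neg h.ne, if_pos h, if_neg hi, if_neg hj, map_one, mul_one, mul_one]
  rfl

theorem om_gt (ε θ : ℝ) (i j : Fin 4) (hj : j ≠ 0) (h : j < i) : om (ff L ε) θ i j = vv L ε := by
  have hi : i ≠ 0 := (Fin.pos_of_ne_zero hj |>.trans h).ne'
  unfold om ww cc
  rw [if_neg h.ne', if_neg h.not_gt, if_neg hi, if_neg hj, map_one, mul_one, mul_one]
  rfl

theorem RA (ε : ℝ) (t : Fin L) : RR ε t (.inl 0) 2 - RR ε t (.inl 0) 0 = 0 := by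
  have h1 := uv (L := L) ε
  have h2 := two_co (L := L) ε
  have h3 := EE_conj (L := L) ε t
  rw [RR_exp, RR_exp, lvv_T, lvv_S, lvv_S, om_00, om_0j _ _ _ (by decide), om_0j _ _ _ (by decide),
    om_0j _ _ _ (by decide), om_i0 _ _ _ (by decide), om_d _ _ _ (by decide),
    om_gt _ _ 2 1 (by decide) (by decide), om_lt _ _ 2 3 (by decide) (by decide)]
  rw [if_pos (⟨t.2, rfl⟩ : (t : ℕ) < L ∧ (0 : Fin 3) = 0)]
  by_cases h : (t : ℕ) + 1 = L
  · rw [if_pos h, if_neg (fun h4 => absurd h4.1 (not_lt.2 h.ge))]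
    linear_combination h2 - uu L ε * h3
  · have h4 : (t : ℕ) + 1 < L := lt_of_le_of_ne t.2 h
    rw [if_neg h, if_pos ⟨h4, rfl⟩, EE_succ]
    linear_combination (-(EE L ε t) * vv L ε + vv L ε) * h1 -
      uu L ε * (1 - vv L ε * vv L ε) * h3

theorem RB (ε : ℝ) (s t : Fin L) (hst : (t : ℕ) = s + 1) :
    RR ε s (.inl 0) 3 - RR ε t (.inl 0) 1 = 0 := by
  have h1 := uv (L := L) ε
  have h2 := two_co (L := L) ε
  rw [RR_exp, RR_exp, lvv_T, lvv_T, lvv_S, lvv_S, lvv_S, lvv_S, om_i0 _ _ _ (by decide),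
    om_i0 _ _ _ (by decide), om_d _ _ _ (by decide), om_d _ _ _ (by decide),
    om_gt _ _ 3 1 (by decide) (by decide), om_gt _ _ 3 2 (by decide) (by decide),
    om_lt _ _ 1 2 (by decide) (by decide), om_lt _ _ 1 3 (by decide) (by decide)]
  rw [if_pos (⟨s.2, rfl⟩ : (s : ℕ) < L ∧ (0 : Fin 3) = 0),
    if_pos (⟨hst ▸ t.2, rfl⟩ : (s : ℕ) + 1 < L ∧ (0 : Fin 3) = 0),
    if_pos (⟨t.2, rfl⟩ : (t : ℕ) < L ∧ (0 : Fin 3) = 0),
    if_neg (by have := t.2; omega : ¬ ((s : ℕ) + 1 = L)), hst, EE_succ]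
  by_cases h : (s : ℕ) + 1 + 1 = L
  · rw [if_pos h, if_neg (fun h4 => absurd h4.1 (not_lt.2 h.ge))]
    linear_combination (1 - EE L ε s * (vv L ε * vv L ε)) * h2 - vv L ε * EE L ε s * h1
  · have h4 : (s : ℕ) + 1 + 1 < L := by
      have := t.2
      omega
    rw [if_neg h, if_pos (⟨h4, rfl⟩ : (s : ℕ) + 1 + 1 < L ∧ (0 : Fin 3) = 0), EE_succ, EE_succ]
    linear_combination (1 - EE L ε s * (vv L ε * vv L ε)) * h2 +
      (vv L ε * (EE L ε s * (vv L ε * vv L ε)) - vv L ε * EE L ε s) * h1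

theorem vS_inl (n : ℕ) (j : Fin 3) (t : Fin L) : vS L n j ≠ some (.inl t) := by
  unfold vS
  split_ifs
  · intro h
    cases h
  · intro h
    cases h

theorem vS_inr (n : ℕ) (j : Fin 3) (s : Fin (L - 1)) (j' : Fin 3) :
    vS L n j = some (.inr (s, j')) ↔ (n = (s : ℕ) + 1 ∧ j' = j) := by
  have hs := s.2
  unfold vS
  split_ifs with h
  · rw [Option.some.injEq, Sum.inr.injEq, Prod.mk.injEq, Fin.ext_iff]
    simp only
    constructor
    · rintro ⟨h1, h2⟩
      exact ⟨by omega, h2.symm⟩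
    · rintro ⟨h1, h2⟩
      exact ⟨by omega, h2.symm⟩
  · constructor
    · intro h1
      cases h1
    · rintro ⟨h1, _⟩
      exact absurd (⟨by omega, by omega⟩ : 0 < n ∧ n < L) h

theorem vT_eq (t : Fin L) (a : AL L) : vT L t = some a ↔ a = .inl t := by
  unfold vT
  rw [dif_pos t.2, Option.some.injEq]
  exact eq_comm

theorem ker (ε : ℝ) (a : AL L) : ∑ b, hS ε 1 a b * zet ε b = 0 := by
  rw [hS_zet]
  have h1 : ∀ t : Fin L, ∑ κ, ∑ i, inl1 t κ i a * RR ε t κ i =
      ∑ i, inl1 t (.inl 0) i a * RR ε t (.inl 0) i := by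
    intro t
    refine Finset.sum_eq_single _ (fun κ _ hκ => ?_) (fun h => absurd (Finset.mem_univ _) h)
    refine Finset.sum_eq_zero fun i _ => ?_
    rcases κ with j | m
    · rw [RR_inl ε t j (fun h => hκ (by rw [h])), mul_zero]
    · rw [RR_inr, mul_zero]
  rw [Finset.sum_congr rfl fun t _ => h1 t]
  have h2 : ∀ t : Fin L, ∑ i, inl1 t (.inl 0) i a * RR ε t (.inl 0) i =
      (if a = .inl t then RR ε t (.inl 0) 2 - RR ε t (.inl 0) 0 else 0) -
      (if vS L t 0 = some a then RR ε t (.inl 0) 1 else 0) +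
      (if vS L (t + 1) 0 = some a then RR ε t (.inl 0) 3 else 0) := by
    intro t
    rw [Fin.sum_univ_four]
    show (if vT L t = some a then ((-1 : ℝ) : ℂ) else 0) * RR ε t (.inl 0) 0 +
      (if vS L t 0 = some a then ((-1 : ℝ) : ℂ) else 0) * RR ε t (.inl 0) 1 +
      (if vT L t = some a then ((1 : ℝ) : ℂ) else 0) * RR ε t (.inl 0) 2 +
      (if vS L (t + 1) 0 = some a then ((1 : ℝ) : ℂ) else 0) * RR ε t (.inl 0) 3 = _
    rw [if_congr (vT_eq t a) rfl rfl, if_congr (vT_eq t a) rfl rfl]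
    split_ifs <;> push_cast <;> ring
  rw [Finset.sum_congr rfl fun t _ => h2 t]
  rcases a with t0 | ⟨s, j⟩
  · refine Finset.sum_eq_zero fun t _ => ?_
    rw [if_neg (vS_inl _ _ _), if_neg (vS_inl _ _ _), RA]
    simp
  · have hs := s.2
    have h3 : ∀ t : Fin L, (if (.inr (s, j) : AL L) = .inl t then
        RR ε t (.inl 0) 2 - RR ε t (.inl 0) 0 else 0) -
      (if vS L t 0 = some (.inr (s, j)) then RR ε t (.inl 0) 1 else 0) +
      (if vS L (t + 1) 0 = some (.inr (s, j)) then RR ε t (.inl 0) 3 else 0) =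
      (if t = (⟨s, by omega⟩ : Fin L) then (if j = 0 then RR ε t (.inl 0) 3 else 0) else 0) -
      (if t = (⟨s + 1, by omega⟩ : Fin L) then (if j = 0 then RR ε t (.inl 0) 1 else 0) else 0) := by
      intro t
      rw [RA, if_congr (vS_inr t 0 s j) rfl rfl, if_congr (vS_inr (t + 1) 0 s j) rfl rfl, ite_self]
      by_cases h4 : j = 0
      · subst h4
        simp only [and_true, if_true, Fin.ext_iff, add_left_inj]
        ring
      · rw [if_neg (fun h5 => h4 h5.2), if_neg (fun h5 => h4 h5.2), if_neg h4, if_neg h4]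
        simp
    rw [Finset.sum_congr rfl fun t _ => h3 t, Finset.sum_sub_distrib, Finset.sum_ite_eq',
      Finset.sum_ite_eq', if_pos (Finset.mem_univ _), if_pos (Finset.mem_univ _)]
    split_ifs
    · exact RB ε _ _ rfl
    · exact sub_zero _

theorem jJ_inj : Function.Injective (jJ L) := by
  intro a b h
  rcases a with _ | a <;> rcases b with _ | b
  · rfl
  · cases h
  · cases h
  · have := Sum.inr_injective h
    rw [this]

theorem kerJ (ε : ℝ) (a : AL L) : ∑ b, hS ε 1 a (jJ L b) * zet ε (jJ L b) = 0 := by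
  rw [← ker ε a, Fintype.sum_sum_type, Fintype.sum_option]
  congr 1
  symm
  refine Finset.sum_eq_single (⟨L - 1, Nat.sub_lt (Nat.pos_of_ne_zero (NeZero.ne L)) one_pos⟩ : Fin L)
    (fun t _ ht => ?_) (fun h => absurd (Finset.mem_univ _) h)
  have : zet ε (.inl t : AL L) = 0 := by
    show (if (t : ℕ) + 1 = L then (1 : ℂ) else 0) = 0
    rw [if_neg]
    intro h
    exact ht (Fin.ext (by show (t : ℕ) = L - 1; omega))
  rw [this, mul_zero]

theorem zet_none (ε : ℝ) : zet ε (jJ L none) = 1 := by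
  show (if L - 1 + 1 = L then (1 : ℂ) else 0) = 1
  rw [if_pos (Nat.sub_add_cancel (Nat.pos_of_ne_zero (NeZero.ne L)))]

theorem FP' (hFP : S_FP) {P : Type} [Fintype P] [DecidableEq P] (p0 : P) (h : Matrix P P ℂ)
    (z : P → ℂ) (hz : ∀ p, ∑ q, h p q * z q = 0) (hh : ∀ p q, (starRingEnd ℂ) (h p q) = h q p) :
    det (h + Matrix.of fun p q => z p * (starRingEnd ℂ) (z q)) *
      (z p0 * (starRingEnd ℂ) (z p0)) =
      (∑ p, (starRingEnd ℂ) (z p) * z p) ^ 2 *
        det (h.submatrix (Subtype.val : {p // p ≠ p0} → P) Subtype.val) := by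
  set e : {p // p ≠ p0} ⊕ Unit ≃ P :=
    (Equiv.optionEquivSumPUnit.{0} _).symm.trans (Equiv.optionSubtypeNe p0) with he
  have he1 : ∀ w : {p // p ≠ p0}, e (Sum.inl w) = w.1 := by
    intro w
    simp [he]
  have he2 : ∀ u : Unit, e (Sum.inr u) = p0 := by
    intro u
    simp [he]
  have key := hFP (W := {p // p ≠ p0}) (T := Unit) (h.submatrix e e)
    (Matrix.of fun p _ => z (e p)) ?_ ?_
  · have h1 : h.submatrix e e + (Matrix.of fun p (_ : Unit) => z (e p)) *
        (Matrix.of fun p (_ : Unit) => z (e p))ᴴ =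
        (h + Matrix.of fun p q => z p * (starRingEnd ℂ) (z q)).submatrix e e := by
      ext i j
      simp [Matrix.mul_apply]
    rw [h1, det_submatrix_equiv_self] at key
    have h2 : det (toRows₂ (Matrix.of fun (p : {p // p ≠ p0} ⊕ Unit) (_ : Unit) => z (e p))) =
        z p0 := by
      rw [det_unique]
      show z (e (Sum.inr _)) = z p0
      rw [he2]
    have h3 : det ((Matrix.of fun (p : {p // p ≠ p0} ⊕ Unit) (_ : Unit) => z (e p))ᴴ *
        (Matrix.of fun (p : {p // p ≠ p0} ⊕ Unit) (_ : Unit) => z (e p))) =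
        ∑ p, (starRingEnd ℂ) (z p) * z p := by
      rw [det_unique, Matrix.mul_apply]
      rw [← Equiv.sum_comp e (fun p => (starRingEnd ℂ) (z p) * z p)]
      rfl
    have h4 : toBlocks₁₁ (h.submatrix e e) =
        h.submatrix (Subtype.val : {p // p ≠ p0} → P) Subtype.val := by
      ext i j
      show h (e (Sum.inl i)) (e (Sum.inl j)) = h i.1 j.1
      rw [he1, he1]
    rw [h2, h3, h4] at key
    exact key
  · ext i j
    rw [Matrix.mul_apply, Matrix.zero_apply]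
    have := Equiv.sum_comp e (fun q => h (e i) q * z q)
    rw [hz] at this
    exact this
  · ext i j
    rw [Matrix.mul_apply, Matrix.zero_apply]
    have h5 := Equiv.sum_comp e (fun q => h (e j) q * z q)
    rw [hz] at h5
    have h6 := congrArg (starRingEnd ℂ) h5
    rw [map_sum, map_zero] at h6
    rw [← h6]
    refine Finset.sum_congr rfl fun q _ => ?_
    rw [map_mul, hh, mul_comm]
    rfl

theorem hF_conj (ε : ℝ) (w w' : Links L) : (starRingEnd ℂ) (hF ε w w') = hF ε w' w := by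
  unfold hF
  simp only [map_sum]
  refine Finset.sum_congr rfl fun p _ => ?_
  rw [Finset.sum_comm]
  refine Finset.sum_congr rfl fun i _ => Finset.sum_congr rfl fun j _ => ?_
  rw [map_mul, map_mul, om_conj, Complex.conj_ofReal, Complex.conj_ofReal]
  ring

theorem zk_zero : zk (0 : Sp L) = 1 := by
  funext j
  show ZMod.stdAddChar ((0 : Sp L) j) = 1
  rw [Pi.zero_apply, AddChar.map_zero_eq_one]

theorem kerH (ε : ℝ) (x : Sp L) (a : AL L) :
    ∑ q : Sp L × Option (Fin (L - 1) × Fin 3),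
      hF ε (x, a) (q.1, jJ L q.2) * zet ε (jJ L q.2) = 0 := by
  rw [Fintype.sum_prod_type, Finset.sum_comm]
  have h1 : ∀ b, ∑ y : Sp L, hF ε (x, a) (y, jJ L b) * zet ε (jJ L b) =
      hS ε 1 a (jJ L b) * zet ε (jJ L b) := by
    intro b
    rw [← Finset.sum_mul]
    congr 1
    simp only [hF_eq]
    rw [← Finset.mul_sum, Finset.sum_comm]
    have h2 : ∀ k : Sp L, ∑ y : Sp L, chi k (x - y) * hS ε (zk k) a (jJ L b) =
        if k = 0 then (L : ℂ) ^ 3 * hS ε (zk k) a (jJ L b) else 0 := by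
      intro k
      rw [← Finset.sum_mul]
      have h3 : ∑ y : Sp L, chi k (x - y) = ∑ y, chi y k := by
        rw [← Equiv.sum_comp (Equiv.subLeft x) (fun y => chi y k)]
        exact Finset.sum_congr rfl fun y _ => chi_comm _ _
      rw [h3, chi_sum, ite_mul, zero_mul]
    rw [Finset.sum_congr rfl fun k _ => h2 k, Finset.sum_ite_eq', if_pos (Finset.mem_univ _),
      zk_zero, ← mul_assoc, one_div, inv_mul_cancel₀ hL3, one_mul]
  rw [Finset.sum_congr rfl fun b _ => h1 b]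
  exact kerJ ε a

/-- positions -/
abbrev PP (L : ℕ) := Sp L × Option (Fin (L - 1) × Fin 3)

theorem dyn_jJ (p : PP L) (hp : p ≠ (0, none)) : dyn (L := L) (p.1, jJ L p.2) := by
  intro t ht
  rcases p with ⟨x, _ | a⟩
  · have h1 : t = ⟨L - 1, Nat.sub_lt (Nat.pos_of_ne_zero (NeZero.ne L)) one_pos⟩ :=
      (Sum.inl_injective ht).symm
    constructor
    · rw [h1]
      exact Nat.sub_add_cancel (Nat.pos_of_ne_zero (NeZero.ne L))
    · intro h2
      exact hp (Prod.ext h2 rfl)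
  · cases ht

/-- all dynamical links -/
def phi (p : {p : PP L // p ≠ (0, none)}) : Dy L := ⟨(p.1.1, jJ L p.1.2), dyn_jJ p.1 p.2⟩

theorem phi_bij : Function.Bijective (phi (L := L)) := by
  constructor
  · intro p q h
    have h1 := congrArg Subtype.val h
    have h2 := congrArg Prod.fst h1
    have h3 := jJ_inj (congrArg Prod.snd h1)
    exact Subtype.ext (Prod.ext h2 h3)
  · rintro ⟨⟨x, a⟩, hw⟩
    rcases a with t | a
    · obtain ⟨h1, h2⟩ := hw t rfl
      refine ⟨⟨(x, none), fun h3 => h2 (congrArg Prod.fst h3)⟩, ?_⟩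
      refine Subtype.ext (Prod.ext rfl ?_)
      show (Sum.inl _ : AL L) = Sum.inl t
      congr 1
      exact Fin.ext (by show L - 1 = (t : ℕ); omega)
    · refine ⟨⟨(x, some a), fun h3 => ?_⟩, rfl⟩
      have := congrArg Prod.snd h3
      cases this

/-- the norm of the zero mode -/
def NN (L : ℕ) [NeZero L] (ε : ℝ) : ℂ :=
  ∑ b : Option (Fin (L - 1) × Fin 3), (starRingEnd ℂ) (zet ε (jJ L b)) * zet ε (jJ L b)

theorem NN_ne (ε : ℝ) : NN L ε ≠ 0 := by
  have h1 : NN L ε = ((∑ b : Option (Fin (L - 1) × Fin 3), Complex.normSq (zet ε (jJ L b)) : ℝ) : ℂ) := by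
    unfold NN
    rw [Complex.ofReal_sum]
    refine Finset.sum_congr rfl fun b _ => ?_
    rw [Complex.normSq_eq_conj_mul_self]
  rw [h1]
  have h2 : (1 : ℝ) ≤ ∑ b : Option (Fin (L - 1) × Fin 3), Complex.normSq (zet ε (jJ L b)) := by
    have h3 := Finset.single_le_sum (f := fun b : Option (Fin (L - 1) × Fin 3) =>
      Complex.normSq (zet ε (jJ L b))) (fun b _ => Complex.normSq_nonneg _)
      (Finset.mem_univ none)
    rw [zet_none, Complex.normSq_one] at h3
    exact h3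
  exact Complex.ofReal_ne_zero.2 (by linarith)

theorem af_pos : S_FP → S_FOUR → S_POS := by
  intro hFP hFO L _ hL ε
  -- position space
  have A := FP' hFP (P := PP L) (0, none)
    (Matrix.of fun p q : PP L => hF ε (p.1, jJ L p.2) (q.1, jJ L q.2))
    (fun p => zet ε (jJ L p.2)) (fun p => kerH ε p.1 (jJ L p.2)) (fun p q => hF_conj ε _ _)
  have A1 : det ((Matrix.of fun p q : PP L => hF ε (p.1, jJ L p.2) (q.1, jJ L q.2)).submatrix
      (Subtype.val : {p : PP L // p ≠ (0, none)} → PP L) Subtype.val) =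
      det (rs (hF (L := L) ε)) := by
    rw [← det_submatrix_equiv_self (Equiv.ofBijective _ phi_bij) (rs (hF (L := L) ε))]
    rfl
  have A2 : ∑ p : PP L, (starRingEnd ℂ) (zet ε (jJ L p.2)) * zet ε (jJ L p.2) =
      (L : ℂ) ^ 3 * NN L ε := by
    rw [Fintype.sum_prod_type]
    show ∑ _x : Sp L, NN L ε = _
    rw [Finset.sum_const, Finset.card_univ, Fintype.card_pi_const, ZMod.card, nsmul_eq_mul]
    push_cast
    rfl
  rw [A1, A2] at A
  simp only [zet_none, map_one, mul_one] at A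
  -- momentum space
  have B := hFO L (fun k : Sp L => (Matrix.of (hS (L := L) ε (zk k))).submatrix (jJ L) (jJ L) +
    Matrix.of fun a b => if k = 0 then (L : ℂ) ^ 3 *
      (zet ε (jJ L a) * (starRingEnd ℂ) (zet ε (jJ L b))) else 0)
  have B1 : (Matrix.of fun (p q : PP L) => (1 / (L : ℂ) ^ 3) *
      ∑ k : Sp L, (∏ j, zk k j ^ (p.1 j - q.1 j).val) *
        ((Matrix.of (hS (L := L) ε (zk k))).submatrix (jJ L) (jJ L) +
          Matrix.of fun a b => if k = 0 then (L : ℂ) ^ 3 *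
            (zet ε (jJ L a) * (starRingEnd ℂ) (zet ε (jJ L b))) else 0) p.2 q.2) =
      (Matrix.of fun p q : PP L => hF ε (p.1, jJ L p.2) (q.1, jJ L q.2)) +
        Matrix.of fun p q : PP L => zet ε (jJ L p.2) * (starRingEnd ℂ) (zet ε (jJ L q.2)) := by
    ext p q
    rw [Matrix.add_apply, Matrix.of_apply, Matrix.of_apply, Matrix.of_apply, hF_eq]
    have h1 : ∀ k : Sp L, (∏ j, zk k j ^ (p.1 j - q.1 j).val) *
        ((Matrix.of (hS (L := L) ε (zk k))).submatrix (jJ L) (jJ L) +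
          Matrix.of fun a b => if k = 0 then (L : ℂ) ^ 3 *
            (zet ε (jJ L a) * (starRingEnd ℂ) (zet ε (jJ L b))) else 0) p.2 q.2 =
        chi k (p.1 - q.1) * hS ε (zk k) (jJ L p.2) (jJ L q.2) +
        (if k = 0 then (L : ℂ) ^ 3 *
            (zet ε (jJ L p.2) * (starRingEnd ℂ) (zet ε (jJ L q.2))) else 0) := by
      intro k
      have h2 : (∏ j, zk k j ^ (p.1 j - q.1 j).val) = chi k (p.1 - q.1) := chi_eq k (p.1 - q.1)
      rw [h2, Matrix.add_apply, Matrix.of_apply, Matrix.submatrix_apply, Matrix.of_apply, mul_add]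
      congr 1
      split_ifs with h3
      · rw [h3, chi_comm, chi_zero, one_mul]
      · rw [mul_zero]
    rw [Finset.sum_congr rfl fun k _ => h1 k, Finset.sum_add_distrib, mul_add, Finset.sum_ite_eq',
      if_pos (Finset.mem_univ _), ← mul_assoc (1 / (L : ℂ) ^ 3) ((L : ℂ) ^ 3), one_div,
      inv_mul_cancel₀ hL3, one_mul]
  rw [B1, A] at B
  -- the modes of momentum zero
  have C := FP' hFP (P := Option (Fin (L - 1) × Fin 3)) none
    ((Matrix.of (hS (L := L) ε 1)).submatrix (jJ L) (jJ L))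
    (fun b => ((Real.sqrt ((L : ℝ) ^ 3) : ℝ) : ℂ) * zet ε (jJ L b)) ?_
    (fun p q => hS_conj ε _ _ _)
  · have hs : ((Real.sqrt ((L : ℝ) ^ 3) : ℝ) : ℂ) * ((Real.sqrt ((L : ℝ) ^ 3) : ℝ) : ℂ) =
        (L : ℂ) ^ 3 := by
      rw [← Complex.ofReal_mul, Real.mul_self_sqrt (by positivity)]
      push_cast
      rfl
    have hc : (starRingEnd ℂ) ((Real.sqrt ((L : ℝ) ^ 3) : ℝ) : ℂ) =
      ((Real.sqrt ((L : ℝ) ^ 3) : ℝ) : ℂ) := Complex.conj_ofReal _
    simp only [zet_none, map_mul, hc, mul_one, hs] at C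
    have C1 : ∑ b : Option (Fin (L - 1) × Fin 3), ((Real.sqrt ((L : ℝ) ^ 3) : ℝ) : ℂ) *
        (starRingEnd ℂ) (zet ε (jJ L b)) * (((Real.sqrt ((L : ℝ) ^ 3) : ℝ) : ℂ) *
          zet ε (jJ L b)) = (L : ℂ) ^ 3 * NN L ε := by
      unfold NN
      rw [Finset.mul_sum]
      refine Finset.sum_congr rfl fun b _ => ?_
      rw [← hs]
      ring
    have C2 : det (((Matrix.of (hS (L := L) ε 1)).submatrix (jJ L) (jJ L)).submatrix
        (Subtype.val : {p : Option (Fin (L - 1) × Fin 3) // p ≠ none} → _) Subtype.val) =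
        det ((Matrix.of (hS (L := L) ε 1)).submatrix
        (Sum.inr : Fin (L - 1) × Fin 3 → AL L) (Sum.inr : Fin (L - 1) × Fin 3 → AL L)) := by
      have hb : Function.Bijective (fun q : Fin (L - 1) × Fin 3 =>
          (⟨some q, Option.some_ne_none q⟩ : {p : Option (Fin (L - 1) × Fin 3) // p ≠ none})) := by
        constructor
        · intro q q' h
          exact Option.some_injective _ (congrArg Subtype.val h)
        · rintro ⟨p, hp⟩
          rcases p with _ | q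
          · exact absurd rfl hp
          · exact ⟨q, rfl⟩
      rw [← det_submatrix_equiv_self (Equiv.ofBijective _ hb)]
      rfl
    have C3 : (Matrix.of fun p q : Option (Fin (L - 1) × Fin 3) =>
        ((Real.sqrt ((L : ℝ) ^ 3) : ℝ) : ℂ) * zet ε (jJ L p) *
          (((Real.sqrt ((L : ℝ) ^ 3) : ℝ) : ℂ) * (starRingEnd ℂ) (zet ε (jJ L q)))) =
        Matrix.of fun a b => (L : ℂ) ^ 3 *
          (zet ε (jJ L a) * (starRingEnd ℂ) (zet ε (jJ L b))) := by
      ext a b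
      rw [Matrix.of_apply, Matrix.of_apply, ← hs]
      ring
    rw [C1, C2, C3] at C
    -- assembly
    have D : ∏ k : Sp L, det ((Matrix.of (hS (L := L) ε (zk k))).submatrix (jJ L) (jJ L) +
        Matrix.of fun a b => if k = 0 then (L : ℂ) ^ 3 *
          (zet ε (jJ L a) * (starRingEnd ℂ) (zet ε (jJ L b))) else 0) =
        det ((Matrix.of (hS (L := L) ε 1)).submatrix (jJ L) (jJ L) +
          Matrix.of fun a b => (L : ℂ) ^ 3 *
            (zet ε (jJ L a) * (starRingEnd ℂ) (zet ε (jJ L b)))) *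
        ∏ k ∈ Finset.univ.filter (fun k : Sp L => k ≠ 0),
          det ((Matrix.of (hS (L := L) ε (zk k))).submatrix (jJ L) (jJ L)) := by
      rw [← Finset.mul_prod_erase Finset.univ _ (Finset.mem_univ (0 : Sp L)), Finset.filter_ne']
      congr 1
      · rw [zk_zero]
        simp only [if_true]
      · refine Finset.prod_congr rfl fun k hk => ?_
        have hk0 : k ≠ 0 := (Finset.mem_erase.1 hk).1
        congr 1
        ext a b
        rw [Matrix.add_apply, Matrix.of_apply, if_neg hk0, add_zero]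
    rw [D] at B
    have hN : (L : ℂ) ^ 3 * NN L ε ≠ 0 := mul_ne_zero hL3 (NN_ne ε)
    have hN2 : ((L : ℂ) ^ 3 * NN L ε) ^ 2 * (L : ℂ) ^ 3 ≠ 0 :=
      mul_ne_zero (pow_ne_zero _ hN) hL3
    apply mul_left_cancel₀ hN2
    set X := det (rs (hF (L := L) ε))
    set Y := det ((Matrix.of (hS (L := L) ε 1)).submatrix (jJ L) (jJ L) +
          Matrix.of fun a b => (L : ℂ) ^ 3 *
            (zet ε (jJ L a) * (starRingEnd ℂ) (zet ε (jJ L b))))
    set Q := ∏ k ∈ Finset.univ.filter (fun k : Sp L => k ≠ 0),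
          det ((Matrix.of (hS (L := L) ε (zk k))).submatrix (jJ L) (jJ L))
    set V := det ((Matrix.of (hS (L := L) ε 1)).submatrix
        (Sum.inr : Fin (L - 1) × Fin 3 → AL L) (Sum.inr : Fin (L - 1) × Fin 3 → AL L))
    have h5 : (1 / (L : ℂ) ^ 3) * (L : ℂ) ^ 3 = 1 := by
      rw [one_div, inv_mul_cancel₀ hL3]
    calc ((L : ℂ) ^ 3 * NN L ε) ^ 2 * (L : ℂ) ^ 3 * X
        = (((L : ℂ) ^ 3 * NN L ε) ^ 2 * X) * (L : ℂ) ^ 3 := by ring
      _ = (Y * (L : ℂ) ^ 3) * Q := by rw [B]; ring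
      _ = (((L : ℂ) ^ 3 * NN L ε) ^ 2 * V) * Q := by rw [C]
      _ = (((L : ℂ) ^ 3 * NN L ε) ^ 2 * V) * Q * (1 / (L : ℂ) ^ 3 * (L : ℂ) ^ 3) := by
          rw [h5, mul_one]
      _ = _ := by ring
  · intro p
    have h6 := kerJ ε (jJ L p)
    have h7 : ∀ q, (Matrix.of (hS (L := L) ε 1)).submatrix (jJ L) (jJ L) p q *
        (((Real.sqrt ((L : ℝ) ^ 3) : ℝ) : ℂ) * zet ε (jJ L q)) =
        ((Real.sqrt ((L : ℝ) ^ 3) : ℝ) : ℂ) *
          (hS ε 1 (jJ L p) (jJ L q) * zet ε (jJ L q)) := by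
      intro q
      rw [Matrix.submatrix_apply, Matrix.of_apply]
      ring
    rw [Finset.sum_congr rfl fun q _ => h7 q, ← Finset.mul_sum, h6, mul_zero]

end

end Pool.Agent.Y141.AF
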